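import Mathlib
import Pool.Agent.H729Z.Pi04.Flip

/-!
# An F-sigma-delta ideal which is not a Farah ideal

On the tree of finite sequences of natural numbers take the sets without infinite chain which,
for some level `h` and some `w`, have no antichain of size above `w` above any node of level `h`.
-/

set_option autoImplicit false

namespace Pool.Agent.H729Z.Farah

open Set Filter Topology

/-- enumeration of the tree -/
def nd (n : ℕ) : List ℕ := Denumerable.ofNat (List ℕ) n

theorem nd_bij : Function.Bijective nd := (Denumerable.eqv (List ℕ)).symm.bijective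

/-- the tree order on indices -/
def le' (a b : ℕ) : Prop := nd a <+: nd b

instance : IsTrans ℕ le' := ⟨fun _ _ _ h1 h2 => List.IsPrefix.trans h1 h2⟩

instance : IsTrans ℕ (fun a b => le' b a) := ⟨fun _ _ _ h1 h2 => List.IsPrefix.trans h2 h1⟩

/-- antichains -/
def Anti (A : Finset ℕ) : Prop := ∀ a ∈ A, ∀ b ∈ A, a ≠ b → ¬ le' a b

/-- bounded width above `t` -/
def BW (t : List ℕ) (w : ℕ) (x : ℕ → Bool) : Prop :=
  ∀ A : Finset ℕ, (∀ a ∈ A, x a = true ∧ t <+: nd a) → Anti A → A.card ≤ w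

/-- no infinite chain -/
def NoChain (x : ℕ → Bool) : Prop :=
  ∀ C : Set ℕ, (∀ a ∈ C, x a = true) → (∀ a ∈ C, ∀ b ∈ C, le' a b ∨ le' b a) → C.Finite

/-- the ideal -/
def II : Set (ℕ → Bool) :=
  {x | (∃ h w : ℕ, ∀ t : List ℕ, t.length = h → BW t w x) ∧ NoChain x}

theorem true_of_le {x y : ℕ → Bool} (h : y ≤ x) {a : ℕ} (ha : y a = true) : x a = true := by
  have := h a
  rw [ha] at this
  exact top_le_iff.1 this

theorem II_her : ∀ x ∈ II, ∀ y : ℕ → Bool, y ≤ x → y ∈ II := by
  rintro x ⟨⟨h, w, hx⟩, hc⟩ y hyx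
  refine ⟨⟨h, w, fun t ht A hA hA2 => hx t ht A (fun a ha => ?_) hA2⟩, fun C hC hC2 => ?_⟩
  · exact ⟨true_of_le hyx (hA a ha).1, (hA a ha).2⟩
  · exact hc C (fun a ha => true_of_le hyx (hC a ha)) hC2

theorem BW.up {h h' w : ℕ} {x : ℕ → Bool} (hx : ∀ t : List ℕ, t.length = h → BW t w x)
    (hh : h ≤ h') (t : List ℕ) (ht : t.length = h') : BW t w x := by
  intro A hA hA2
  refine hx (t.take h) (by simp [ht, hh]) A (fun a ha => ⟨(hA a ha).1, ?_⟩) hA2
  exact (List.take_prefix h t).trans (hA a ha).2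

theorem II_union : ∀ x ∈ II, ∀ y ∈ II, x ⊔ y ∈ II := by
  classical
  rintro x ⟨⟨h, w, hx⟩, hc⟩ y ⟨⟨h', w', hy⟩, hc'⟩
  have hor : ∀ a, (x ⊔ y) a = true → x a = true ∨ y a = true := by
    intro a ha
    simpa [Pi.sup_apply, Bool.or_eq_true] using ha
  refine ⟨⟨max h h', w + w', fun t ht A hA hA2 => ?_⟩, fun C hC hC2 => ?_⟩
  · have h1 := BW.up hx (le_max_left h h') t ht (A.filter fun a => x a = true)
      (fun a ha => ⟨(Finset.mem_filter.1 ha).2, (hA a (Finset.mem_filter.1 ha).1).2⟩)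
      (fun a ha b hb => hA2 a (Finset.mem_filter.1 ha).1 b (Finset.mem_filter.1 hb).1)
    have h2 := BW.up hy (le_max_right h h') t ht (A.filter fun a => ¬ x a = true)
      (fun a ha => ⟨(hor a (hA a (Finset.mem_filter.1 ha).1).1).resolve_left
        (Finset.mem_filter.1 ha).2, (hA a (Finset.mem_filter.1 ha).1).2⟩)
      (fun a ha b hb => hA2 a (Finset.mem_filter.1 ha).1 b (Finset.mem_filter.1 hb).1)
    have h3 := Finset.card_filter_add_card_filter_not (s := A) (fun a => x a = true)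
    omega
  · have h1 := hc (C ∩ {a | x a = true}) (fun a ha => ha.2)
      (fun a ha b hb => hC2 a ha.1 b hb.1)
    have h2 := hc' (C ∩ {a | y a = true}) (fun a ha => ha.2)
      (fun a ha b hb => hC2 a ha.1 b hb.1)
    refine (h1.union h2).subset fun a ha => ?_
    rcases hor a (hC a ha) with h3 | h3
    · exact Or.inl ⟨ha, h3⟩
    · exact Or.inr ⟨ha, h3⟩

theorem II_fin : ∀ x : ℕ → Bool, {n : ℕ | x n = true}.Finite → x ∈ II := by
  intro x hx
  refine ⟨⟨0, hx.toFinset.card, fun t _ A hA _ => Finset.card_le_card fun a ha => ?_⟩,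
    fun C hC _ => hx.subset fun a ha => hC a ha⟩
  exact hx.mem_toFinset.2 (hA a ha).1

theorem finite_of_BW {x : ℕ → Bool} (hc : NoChain x) {t : List ℕ} {w : ℕ} (hw : BW t w x) :
    {a | x a = true ∧ t <+: nd a}.Finite := by
  classical
  by_contra hinf
  let f : ℕ → ℕ := fun n => (Set.Infinite.natEmbedding _ hinf n : ℕ)
  have hf : Function.Injective f := fun a b h =>
    (Set.Infinite.natEmbedding _ hinf).injective (Subtype.ext h)
  have hfm : ∀ n, x (f n) = true ∧ t <+: nd (f n) := fun n =>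
    (Set.Infinite.natEmbedding _ hinf n).2
  have hchain : ∀ g : ℕ → ℕ, Function.Injective g →
      (∀ m n, m < n → le' (f (g m)) (f (g n)) ∨ le' (f (g n)) (f (g m))) → False := by
    intro g hg h
    refine infinite_range_of_injective (hf.comp hg) (hc _ ?_ ?_)
    · rintro _ ⟨n, rfl⟩
      exact (hfm _).1
    · rintro _ ⟨m, rfl⟩ _ ⟨n, rfl⟩
      rcases lt_trichotomy m n with h1 | rfl | h1
      · exact h m n h1
      · exact Or.inl (List.prefix_refl _)
      · exact (h n m h1).symm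
  obtain ⟨g, hg | hg⟩ := exists_increasing_or_nonincreasing_subseq le' f
  · exact hchain g g.injective fun m n h => Or.inl (hg m n h)
  obtain ⟨g', hg' | hg'⟩ := exists_increasing_or_nonincreasing_subseq (fun a b => le' b a)
    (fun n => f (g n))
  · exact hchain (fun n => g (g' n)) (g.injective.comp g'.injective)
      fun m n h => Or.inr (hg' m n h)
  have hinj : Function.Injective fun n => f (g (g' n)) :=
    hf.comp (g.injective.comp g'.injective)
  have h1 := hw ((Finset.range (w + 1)).image fun n => f (g (g' n))) (by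
    intro a ha
    obtain ⟨n, -, rfl⟩ := Finset.mem_image.1 ha
    exact hfm _) (by
    intro a ha b hb hab
    obtain ⟨m, -, rfl⟩ := Finset.mem_image.1 ha
    obtain ⟨n, -, rfl⟩ := Finset.mem_image.1 hb
    rcases lt_trichotomy m n with h1 | rfl | h1
    · exact hg _ _ (g'.strictMono h1)
    · exact absurd rfl hab
    · exact hg' n m h1)
  rw [Finset.card_image_of_injective _ hinj, Finset.card_range] at h1
  omega

theorem take_eq_of_prefix {a b : List ℕ} (h : a <+: b) {k : ℕ} (hk : k ≤ a.length) :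
    a.take k = b.take k := by
  obtain ⟨r, rfl⟩ := h
  rw [List.take_append_of_le_length hk]

theorem mem_II_iff (x : ℕ → Bool) : x ∈ II ↔
    (∃ h w : ℕ, ∀ t : List ℕ, t.length = h → BW t w x) ∧
      ∀ (t : List ℕ) (w : ℕ), BW t w x → {a | x a = true ∧ t <+: nd a}.Finite := by
  refine ⟨fun h => ⟨h.1, fun t w hw => finite_of_BW h.2 hw⟩, ?_⟩
  rintro ⟨⟨h, w, hx⟩, h2⟩
  refine ⟨⟨h, w, hx⟩, fun C hC hC2 => ?_⟩
  have hshort : (C ∩ {a | (nd a).length < h}).Finite := by
    refine Set.Finite.of_finite_image (f := fun a => (nd a).length)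
      ((Set.finite_lt_nat h).subset ?_) ?_
    · rintro _ ⟨a, ha, rfl⟩
      exact ha.2
    · intro a ha b hb hab
      apply nd_bij.1
      rcases hC2 a ha.1 b hb.1 with h3 | h3
      · exact List.IsPrefix.eq_of_length h3 hab
      · exact (List.IsPrefix.eq_of_length h3 hab.symm).symm
  rcases (C ∩ {a | h ≤ (nd a).length}).eq_empty_or_nonempty with h3 | ⟨c, hc1, hc2⟩
  · refine hshort.subset fun a ha => ⟨ha, ?_⟩
    by_contra h4
    have : a ∈ C ∩ {a | h ≤ (nd a).length} :=
      ⟨ha, show h ≤ (nd a).length from not_lt.1 (show ¬ (nd a).length < h from h4)⟩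
    rw [h3] at this
    exact this
  · have hc2' : h ≤ (nd c).length := hc2
    have h4 := h2 _ w (hx ((nd c).take h) (by simp [hc2']))
    refine (hshort.union h4).subset fun a ha => ?_
    by_cases h5 : (nd a).length < h
    · exact Or.inl ⟨ha, h5⟩
    · refine Or.inr ⟨hC a ha, ?_⟩
      rcases hC2 a ha c hc1 with h6 | h6
      · rw [← take_eq_of_prefix h6 (not_lt.1 h5)]
        exact List.take_prefix _ _
      · exact (List.take_prefix _ _).trans h6

theorem isClopen_sub (A : Finset ℕ) (R : ℕ → Prop) :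
    IsClopen {x : ℕ → Bool | ∀ a ∈ A, x a = true ∧ R a} := by
  have : {x : ℕ → Bool | ∀ a ∈ A, x a = true ∧ R a} =
      ⋂ a ∈ A, (fun x : ℕ → Bool => x a) ⁻¹' {b | b = true ∧ R a} := by
    ext x
    simp
  rw [this]
  exact isClopen_biInter_finset fun a _ =>
    (isClopen_discrete _).preimage (continuous_apply a)

theorem isClosed_BW (t : List ℕ) (w : ℕ) : IsClosed {x | BW t w x} := by
  have : {x | BW t w x} = ⋂ A : Finset ℕ,
      ({x : ℕ → Bool | ∀ a ∈ A, x a = true ∧ t <+: nd a}ᶜ ∪ {_x | Anti A → A.card ≤ w}) := by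
    ext x
    simp only [BW, mem_ofPred_eq, mem_iInter, mem_union, mem_compl_iff]
    exact forall_congr' fun A => imp_iff_not_or
  rw [this]
  exact isClosed_iInter fun A => (isClopen_sub A _).compl.isClosed.union isClosed_const

/-- the closed pieces -/
def piece : Option (List ℕ × ℕ) → ℕ × ℕ × Finset ℕ → Set (ℕ → Bool)
  | none, j => {x | ∀ t : List ℕ, t.length = j.1 → BW t j.2.1 x}
  | some i, j => ({x | ∀ a ∈ j.2.2, x a = true ∧ i.1 <+: nd a} ∩
      {_x | Anti j.2.2 ∧ i.2 < j.2.2.card}) ∪ {x | ∀ a, j.1 ≤ a → i.1 <+: nd a → x a = false}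

theorem isClosed_piece : ∀ i j, IsClosed (piece i j)
  | none, j => by
    have : piece none j = ⋂ t : List ℕ, ⋂ _ : t.length = j.1, {x | BW t j.2.1 x} := by
      ext x
      simp [piece]
    rw [this]
    exact isClosed_iInter fun t => isClosed_iInter fun _ => isClosed_BW _ _
  | some i, j => by
    refine ((isClopen_sub _ _).isClosed.inter isClosed_const).union ?_
    have : {x : ℕ → Bool | ∀ a, j.1 ≤ a → i.1 <+: nd a → x a = false} =
        ⋂ a, (fun x : ℕ → Bool => x a) ⁻¹' {b | j.1 ≤ a → i.1 <+: nd a → b = false} := by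
      ext x
      simp
    rw [this]
    exact isClosed_iInter fun a => (isClosed_discrete _).preimage (continuous_apply a)

theorem II_eq : II = ⋂ i, ⋃ j, piece i j := by
  ext x
  rw [mem_II_iff]
  simp only [mem_iInter, mem_iUnion]
  constructor
  · rintro ⟨⟨h, w, hx⟩, h2⟩ i
    rcases i with _ | ⟨t, w'⟩
    · exact ⟨(h, w, ∅), hx⟩
    · by_cases h3 : BW t w' x
      · obtain ⟨B, hB⟩ := (h2 t w' h3).bddAbove
        refine ⟨(B + 1, 0, ∅), Or.inr fun a ha hta => ?_⟩
        by_contra h4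
        have := hB (show a ∈ {a | x a = true ∧ t <+: nd a} from ⟨by simpa using h4, hta⟩)
        simp only at ha
        omega
      · unfold BW at h3
        push Not at h3
        obtain ⟨A, hA1, hA2, hA3⟩ := h3
        exact ⟨(0, 0, A), Or.inl ⟨hA1, hA2, hA3⟩⟩
  · intro h
    obtain ⟨j, hj⟩ := h none
    refine ⟨⟨j.1, j.2.1, hj⟩, fun t w hw => ?_⟩
    obtain ⟨j', hj' | hj'⟩ := h (some (t, w))
    · exact absurd (hw _ hj'.1 hj'.2.1) (not_le.2 hj'.2.2)
    · refine (Set.finite_lt_nat j'.1).subset ?_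
      rintro a ⟨ha1, ha2⟩
      by_contra h3
      have := hj' a (not_lt.1 h3) ha2
      rw [ha1] at this
      exact Bool.noConfusion this

theorem II_pi03 : ∃ C : ℕ → ℕ → Set (ℕ → Bool),
    (∀ i j, IsClosed (C i j)) ∧ II = ⋂ i, ⋃ j, C i j := by
  obtain ⟨f, hf⟩ := exists_surjective_nat (Option (List ℕ × ℕ))
  obtain ⟨g, hg⟩ := exists_surjective_nat (ℕ × ℕ × Finset ℕ)
  refine ⟨fun i j => piece (f i) (g j), fun i j => isClosed_piece _ _, ?_⟩
  rw [II_eq, ← hf.iInter_comp]
  exact iInter_congr fun i => (hg.iUnion_comp _).symm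

/-- initial segment of a branch -/
def seg (η : ℕ → ℕ) (j : ℕ) : List ℕ := (List.range j).map η

theorem seg_prefix (η : ℕ → ℕ) {j k : ℕ} (h : j ≤ k) : seg η j <+: seg η k := by
  refine List.IsPrefix.map η ?_
  have : List.range j = (List.range k).take j := by simp [List.take_range, h]
  rw [this]
  exact List.take_prefix _ _

theorem seg_length (η : ℕ → ℕ) (j : ℕ) : (seg η j).length = j := by simp [seg]

theorem seg_get (η : ℕ → ℕ) {j h : ℕ} (hj : h < j) : (seg η j)[h]? = some (η h) := by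
  simp [seg, hj]

theorem get_of_prefix {a b : List ℕ} (hab : a <+: b) {h : ℕ} (hh : h < a.length) :
    a[h]? = b[h]? := by
  obtain ⟨r, rfl⟩ := hab
  rw [List.getElem?_append_left hh]

open Classical in
/-- the chain of initial segments of a branch -/
noncomputable def br (η : ℕ → ℕ) : ℕ → Bool := fun a => decide (∃ j, nd a = seg η j)

theorem br_iff {η : ℕ → ℕ} {a : ℕ} : br η a = true ↔ ∃ j, nd a = seg η j := by simp [br]

theorem seg_comp {η : ℕ → ℕ} {a b j k : ℕ} (ha : nd a = seg η j) (hb : nd b = seg η k) :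
    le' a b ∨ le' b a := by
  unfold le'
  rw [ha, hb]
  rcases le_total j k with h | h
  · exact Or.inl (seg_prefix η h)
  · exact Or.inr (seg_prefix η h)

theorem br_not_mem (η : ℕ → ℕ) : br η ∉ II := by
  rintro ⟨-, hc⟩
  have h1 := hc {a | br η a = true} (fun a ha => ha) (by
    intro a ha b hb
    obtain ⟨j, hj⟩ := br_iff.1 ha
    obtain ⟨k, hk⟩ := br_iff.1 hb
    exact seg_comp hj hk)
  refine Set.infinite_univ (α := ℕ) ((h1.image fun a => (nd a).length).subset fun j _ => ?_)
  obtain ⟨a, ha⟩ := nd_bij.2 (seg η j)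
  exact ⟨a, br_iff.2 ⟨j, ha⟩, by simp [ha, seg_length]⟩

theorem not_farah : ¬ ∃ K : ℕ → Set (ℕ → Bool),
    (∀ n, IsCompact (K n)) ∧
    (∀ n, ∀ x ∈ K n, ∀ y : ℕ → Bool, y ≤ x → y ∈ K n) ∧
    II = {x : ℕ → Bool | ∀ n : ℕ, ∃ k : ℕ, (fun m => x m && decide (k ≤ m)) ∈ K n} := by
  classical
  rintro ⟨K, hK1, hK2, hK3⟩
  let B : ℕ → Set (ℕ → ℕ) := fun n => {η | ∀ k, (fun m => br η m && decide (k ≤ m)) ∉ K n}
  have hB : ⋃ n, closure (B n) = univ := by
    refine eq_univ_of_forall fun η => ?_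
    have h1 := br_not_mem η
    rw [hK3] at h1
    simp only [mem_ofPred_eq, not_forall, not_exists] at h1
    obtain ⟨n, hn⟩ := h1
    exact mem_iUnion.2 ⟨n, subset_closure hn⟩
  obtain ⟨n, η0, hη0⟩ := nonempty_interior_of_iUnion_of_closed (fun n => isClosed_closure) hB
  obtain ⟨_, ⟨η1, h, rfl⟩, -, hcyl⟩ :=
    (PiNat.isTopologicalBasis_cylinders (fun _ : ℕ => ℕ)).exists_subset_of_mem_open hη0
      isOpen_interior
  have hex : ∀ m : ℕ, ∃ (η : ℕ → ℕ) (F : ℕ → Bool), η h = m ∧ F ∉ K n ∧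
      {a | F a = true}.Finite ∧ ∀ a, F a = true → m ≤ a ∧ ∃ j, h < j ∧ nd a = seg η j := by
    intro m
    have h1 : Function.update η1 h m ∈ closure (B n) :=
      interior_subset (hcyl (PiNat.update_mem_cylinder η1 h m))
    obtain ⟨η, hη1, hη2⟩ := mem_closure_iff.1 h1 (PiNat.cylinder (Function.update η1 h m) (h + 1))
      (PiNat.isOpen_cylinder (fun _ : ℕ => ℕ) _ _) (PiNat.self_mem_cylinder _ _)
    have h2 : η h = m := by
      have := PiNat.mem_cylinder_iff.1 hη1 h (Nat.lt_succ_self h)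
      simpa using this
    have hfin : {a | ∃ j, j ≤ h ∧ nd a = seg η j}.Finite := by
      refine Set.Finite.of_finite_image (f := nd)
        (((Set.finite_le_nat h).image (seg η)).subset ?_) nd_bij.1.injOn
      rintro _ ⟨a, ⟨j, hj1, hj2⟩, rfl⟩
      exact ⟨j, hj1, hj2.symm⟩
    obtain ⟨k0, hk0⟩ := hfin.bddAbove
    obtain ⟨N, hN⟩ := Pool.Agent.H729Z.Pi04.exists_cyl (hK1 n).isClosed.isOpen_compl
      (hη2 (max m (k0 + 1)))
    refine ⟨η, fun a => (br η a && decide (max m (k0 + 1) ≤ a)) && decide (a < N), h2,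
      hN _ (fun i hi => by simp [hi]), ?_, ?_⟩
    · refine (Set.finite_lt_nat N).subset fun a ha => ?_
      simp only [mem_ofPred_eq, Bool.and_eq_true, decide_eq_true_eq] at ha
      exact ha.2
    · intro a ha
      simp only [Bool.and_eq_true, decide_eq_true_eq] at ha
      obtain ⟨j, hj⟩ := br_iff.1 ha.1.1
      have h3 := ha.1.2
      refine ⟨by omega, j, ?_, hj⟩
      by_contra h4
      have := hk0 (show a ∈ {a | ∃ j, j ≤ h ∧ nd a = seg η j} from ⟨j, not_lt.1 h4, hj⟩)
      omega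
  choose η F hη hF1 hF2 hF3 using hex
  let Y : ℕ → Bool := fun a => decide (∃ m, F m a = true)
  have hY : ∀ a, Y a = true ↔ ∃ m, F m a = true := fun a => by simp [Y]
  have htag : ∀ m a, F m a = true → (nd a)[h]? = some m ∧ h < (nd a).length := by
    intro m a ha
    obtain ⟨-, j, hj1, hj2⟩ := hF3 m a ha
    rw [hj2, seg_get _ hj1, hη m, seg_length]
    exact ⟨rfl, hj1⟩
  have hYI : Y ∈ II := by
    refine ⟨⟨h + 1, 1, fun t ht A hA hA2 => ?_⟩, fun C hC hC2 => ?_⟩
    · rw [Finset.card_le_one]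
      intro a ha b hb
      by_contra hab
      obtain ⟨m, hm⟩ := (hY a).1 (hA a ha).1
      obtain ⟨m', hm'⟩ := (hY b).1 (hA b hb).1
      have h1 := get_of_prefix (hA a ha).2 (show h < t.length by omega)
      have h2 := get_of_prefix (hA b hb).2 (show h < t.length by omega)
      rw [(htag m a hm).1] at h1
      rw [(htag m' b hm').1, h1] at h2
      have h3 : m = m' := Option.some.inj h2
      subst h3
      obtain ⟨-, j, -, hj⟩ := hF3 m a hm
      obtain ⟨-, k, -, hk⟩ := hF3 m b hm'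
      rcases seg_comp hj hk with h4 | h4
      · exact hA2 a ha b hb hab h4
      · exact hA2 b hb a ha (Ne.symm hab) h4
    · rcases C.eq_empty_or_nonempty with rfl | ⟨c, hc⟩
      · exact finite_empty
      obtain ⟨m, hm⟩ := (hY c).1 (hC c hc)
      refine (hF2 m).subset fun a ha => ?_
      obtain ⟨m', hm'⟩ := (hY a).1 (hC a ha)
      have h1 : (nd a)[h]? = (nd c)[h]? := by
        rcases hC2 a ha c hc with h2 | h2
        · exact get_of_prefix h2 (htag m' a hm').2
        · exact (get_of_prefix h2 (htag m c hm).2).symm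
      rw [(htag m c hm).1, (htag m' a hm').1] at h1
      have h3 : m' = m := Option.some.inj h1
      subst h3
      exact hm'
  rw [hK3] at hYI
  obtain ⟨k, hk⟩ := hYI n
  refine hF1 k (hK2 n _ hk _ fun a => ?_)
  cases hFa : F k a
  · exact Bool.false_le _
  · have h1 : Y a = true := (hY a).2 ⟨k, hFa⟩
    have h2 := (hF3 k a hFa).1
    simp [h1, h2]

end Pool.Agent.H729Z.Farah
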